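import Pool.Agent.Helper28.NO.Goals

/-!
# Packet J: trigonometric moments (MP_705522_gt)
-/

namespace Pool.Agent.Helper27.NO

open Pool.Agent.Helper28.NO
open Finset

lemma cexp_aux (t : ℝ) (m j : ℕ) (hj : j ≤ m) :
    Complex.exp (-((t : ℂ) * Complex.I)) ^ j * Complex.exp ((t : ℂ) * Complex.I) ^ (m - j) =
      Complex.exp (((((m : ℝ) - 2 * (j : ℝ)) * t : ℝ) : ℂ) * Complex.I) := by
  rw [← Complex.exp_nat_mul, ← Complex.exp_nat_mul, ← Complex.exp_add]
  congr 1
  push_cast [Nat.cast_sub hj]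
  ring

theorem goalExp : GExp := by
  intro n t
  have h1 : ((2 : ℂ) * Complex.cos t) ^ (2 * n) =
      (Complex.exp (-((t : ℂ) * Complex.I)) + Complex.exp ((t : ℂ) * Complex.I)) ^ (2 * n) := by
    rw [Complex.cos]
    congr 1
    rw [neg_mul]
    ring
  rw [add_pow] at h1
  have h2 : ((2 : ℂ) * Complex.cos t) ^ (2 * n) = ((4 ^ n * Real.cos t ^ (2 * n) : ℝ) : ℂ) := by
    push_cast
    rw [mul_pow, pow_mul]
    norm_num
  rw [h2] at h1
  have h3 : ∀ j ∈ range (2 * n + 1),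
      (Complex.exp (-((t : ℂ) * Complex.I)) ^ j * Complex.exp ((t : ℂ) * Complex.I) ^ (2 * n - j) *
        ((2 * n).choose j : ℂ)) =
      Complex.exp (((((2 * n : ℕ) : ℝ) - 2 * (j : ℝ)) * t : ℝ) * Complex.I) *
        (((2 * n).choose j : ℝ) : ℂ) := by
    intro j hj
    rw [cexp_aux t (2 * n) j (by have := mem_range.1 hj; omega)]
    push_cast
    rfl
  rw [sum_congr rfl h3] at h1
  have h4 := congrArg Complex.re h1
  rw [Complex.ofReal_re, Complex.re_sum] at h4
  rw [eq_div_iff (by positivity), mul_comm, h4]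
  refine sum_congr rfl fun j _ => ?_
  rw [Complex.re_mul_ofReal, Complex.exp_ofReal_mul_I_re, mul_comm]
  push_cast
  rfl

/-- the coefficients -/
noncomputable def al (n j : ℕ) : ℝ := ((2 * n).choose j : ℝ) / 4 ^ n

lemma al_sum (n : ℕ) : ∑ j ∈ range (2 * n + 1), al n j = 1 := by
  unfold al
  rw [← sum_div]
  have h := Nat.sum_range_choose (2 * n)
  have h' : (∑ j ∈ range (2 * n + 1), ((2 * n).choose j : ℝ)) = 2 ^ (2 * n) := by
    exact_mod_cast h
  rw [h', pow_mul]
  norm_num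

lemma cos_pow_eq (n : ℕ) (t : ℝ) : Real.cos t ^ (2 * n) =
    ∑ j ∈ range (2 * n + 1), al n j * Real.cos ((2 * (n : ℝ) - 2 * (j : ℝ)) * t) := by
  rw [goalExp n t, sum_div]
  refine sum_congr rfl fun j _ => ?_
  unfold al
  ring

lemma ok_pow (n : ℕ) : Ok (fun t => Real.cos t ^ (2 * n)) where
  meas := by fun_prop
  abs_le := fun t => by
    rw [abs_pow]
    exact pow_le_one₀ (abs_nonneg _) (Real.abs_cos_le_one t)
  int := by
    have h := int_sum (range (2 * n + 1)) (al n)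
      (fun j t => Real.cos ((2 * (n : ℝ) - 2 * (j : ℝ)) * t)) (fun j _ => ok_cos _) (al_sum n)
    refine h.congr_fun (fun t _ => ?_) measurableSet_Ioi
    simp only
    rw [cos_pow_eq n t]

lemma ok_pow_cos (n : ℕ) : Ok (fun t => Real.cos t ^ (2 * n) * Real.cos (2 * t)) where
  meas := by fun_prop
  abs_le := fun t => by
    rw [abs_mul, abs_pow]
    exact mul_le_one₀ (pow_le_one₀ (abs_nonneg _) (Real.abs_cos_le_one t)) (abs_nonneg _)
      (Real.abs_cos_le_one _)
  int := by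
    have h := int_sum (range (2 * n + 1)) (al n)
      (fun j t => Real.cos ((2 * (n : ℝ) - 2 * (j : ℝ)) * t) * Real.cos (2 * t))
      (fun j _ => ok_cos_cos _ _) (al_sum n)
    refine h.congr_fun (fun t _ => ?_) measurableSet_Ioi
    simp only
    rw [cos_pow_eq n t, sum_mul]
    simp only [mul_assoc]

lemma Lf_pow (n : ℕ) : Lf (fun t => Real.cos t ^ (2 * n)) =
    ∑ j ∈ range (2 * n + 1), al n j * |2 * (n : ℝ) - 2 * (j : ℝ)| := by
  have e : (fun t => Real.cos t ^ (2 * n)) =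
      fun t => ∑ j ∈ range (2 * n + 1), al n j * Real.cos ((2 * (n : ℝ) - 2 * (j : ℝ)) * t) := by
    ext t
    exact cos_pow_eq n t
  rw [e, Lf_sum (range (2 * n + 1)) (al n)
    (fun j t => Real.cos ((2 * (n : ℝ) - 2 * (j : ℝ)) * t)) (fun j _ => ok_cos _) (al_sum n)]
  simp only [Lf_cos]

lemma Lf_pow_cos (n : ℕ) : Lf (fun t => Real.cos t ^ (2 * n) * Real.cos (2 * t)) =
    ∑ j ∈ range (2 * n + 1), al n j * max |2 * (n : ℝ) - 2 * (j : ℝ)| |2| := by
  have e : (fun t => Real.cos t ^ (2 * n) * Real.cos (2 * t)) =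
      fun t => ∑ j ∈ range (2 * n + 1), al n j *
        (Real.cos ((2 * (n : ℝ) - 2 * (j : ℝ)) * t) * Real.cos (2 * t)) := by
    ext t
    rw [cos_pow_eq n t, sum_mul]
    simp only [mul_assoc]
  rw [e, Lf_sum (range (2 * n + 1)) (al n)
    (fun j t => Real.cos ((2 * (n : ℝ) - 2 * (j : ℝ)) * t) * Real.cos (2 * t))
    (fun j _ => ok_cos_cos _ _) (al_sum n)]
  simp only [Lf_cos_cos]

lemma term_eq (n j : ℕ) : al n j * max |2 * (n : ℝ) - 2 * (j : ℝ)| |2| -
    al n j * |2 * (n : ℝ) - 2 * (j : ℝ)| = if j = n then 2 * bb n else 0 := by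
  split_ifs with h
  · subst h
    rw [sub_self, abs_zero, abs_two, max_eq_right (by norm_num : (0 : ℝ) ≤ 2), mul_zero, sub_zero]
    unfold al bb
    rw [Nat.centralBinom]
    ring
  · have h2 : (2 : ℝ) ≤ |2 * (n : ℝ) - 2 * (j : ℝ)| := by
      rcases lt_or_gt_of_ne h with h' | h'
      · have : (j : ℝ) + 1 ≤ n := by exact_mod_cast h'
        exact le_trans (by linarith) (le_abs_self _)
      · have : (n : ℝ) + 1 ≤ j := by exact_mod_cast h'
        exact le_trans (by linarith) (neg_le_abs _)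
    rw [abs_two, max_eq_left h2, sub_self]

lemma diff_eq (n : ℕ) : Lf (fun t => Real.cos t ^ (2 * n) * Real.cos (2 * t)) -
    Lf (fun t => Real.cos t ^ (2 * n)) = 2 * bb n := by
  rw [Lf_pow, Lf_pow_cos, ← sum_sub_distrib]
  simp only [term_eq]
  rw [sum_ite_eq', if_pos]
  exact mem_range.2 (by omega)

lemma Lf_succ (n : ℕ) : Lf (fun t => Real.cos t ^ (2 * (n + 1))) =
    Lf (fun t => Real.cos t ^ (2 * n)) + bb n := by
  have e : (fun t => Real.cos t ^ (2 * (n + 1))) = fun t =>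
      1 / 2 * (Real.cos t ^ (2 * n)) + 1 / 2 * (Real.cos t ^ (2 * n) * Real.cos (2 * t)) := by
    ext t
    rw [Real.cos_two_mul]
    ring
  rw [e, Lf_aff (ok_pow n) (ok_pow_cos n) (by norm_num)]
  linarith [diff_eq n]

lemma bb_succ (n : ℕ) : 2 * ((n : ℝ) + 1) * bb (n + 1) = (2 * (n : ℝ) + 1) * bb n := by
  have h := Nat.succ_mul_centralBinom_succ n
  have h' : ((n : ℝ) + 1) * (Nat.centralBinom (n + 1) : ℝ) =
      2 * (2 * (n : ℝ) + 1) * (Nat.centralBinom n : ℝ) := by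
    exact_mod_cast h
  unfold bb
  rw [pow_succ]
  field_simp
  linarith

theorem goalJ : GJ := by
  intro n
  induction n with
  | zero => simp [Lf]
  | succ n ih =>
    rw [Lf_succ, ih]
    push_cast
    rw [bb_succ]
    ring

end Pool.Agent.Helper27.NO
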