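import Pool.Agent.Helper28.NO.Goals

/-!
# Packet R2: two large coordinates, real inequality (MP_705522_gt)
-/

namespace Pool.Agent.Helper27.NO

open Pool.Agent.Helper28.NO

lemma concave_pos {α β γ x y r : ℝ} (hα : α ≤ 0) (hx : x ≤ r) (hy : r ≤ y)
    (fx : 0 < α * x ^ 2 + β * x + γ) (fy : 0 < α * y ^ 2 + β * y + γ) :
    0 < α * r ^ 2 + β * r + γ := by
  rcases (hx.trans hy).eq_or_lt with h | h
  · have : r = x := le_antisymm (by linarith) hx
    rw [this]; exact fx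
  · have e : (y - x) * (α * r ^ 2 + β * r + γ) = (y - r) * (α * x ^ 2 + β * x + γ) +
        (r - x) * (α * y ^ 2 + β * y + γ) + (-α) * ((y - r) * (r - x) * (y - x)) := by ring
    have h1 : 0 ≤ (-α) * ((y - r) * (r - x) * (y - x)) := by
      apply mul_nonneg (by linarith)
      apply mul_nonneg (mul_nonneg (by linarith) (by linarith)) (by linarith)
    have h2 : 0 < (y - r) * (α * x ^ 2 + β * x + γ) + (r - x) * (α * y ^ 2 + β * y + γ) := by
      rcases hx.eq_or_lt with h' | h'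
      · have : 0 < (y - r) * (α * x ^ 2 + β * x + γ) := mul_pos (by linarith) fx
        have : 0 ≤ (r - x) * (α * y ^ 2 + β * y + γ) := mul_nonneg (by linarith) fy.le
        linarith
      · have : 0 ≤ (y - r) * (α * x ^ 2 + β * x + γ) := mul_nonneg (by linarith) fx.le
        have : 0 < (r - x) * (α * y ^ 2 + β * y + γ) := mul_pos (by linarith) fy
        linarith
    have h3 : 0 < (y - x) * (α * r ^ 2 + β * r + γ) := by rw [e]; linarith
    exact (mul_pos_iff_of_pos_left (by linarith)).1 h3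

/-- (i) -/
lemma psi_pos {c r : ℝ} (hc1 : 1 < c) (hc2 : c ≤ 1.1225) (hr : 2.6 * (c - 1) ≤ r)
    (hr2 : r ≤ 1 / 2) : 0 < 1 - 2 * r ^ 2 - (c * (2 - r) - 1) ^ 2 := by
  obtain ⟨d, rfl⟩ : ∃ d, c = 1 + d := ⟨c - 1, by ring⟩
  have hd : 0 < d := by linarith
  have hd2 : d ≤ 0.1225 := by linarith
  have e : 1 - 2 * r ^ 2 - ((1 + d) * (2 - r) - 1) ^ 2 = (-(2 + (1 + d) ^ 2)) * r ^ 2 +
    (2 * (2 * (1 + d) - 1) * (1 + d)) * r + (1 - (2 * (1 + d) - 1) ^ 2) := by ring
  rw [e]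
  refine concave_pos (by nlinarith) (x := 2.6 * d) (y := 1 / 2) (by linarith) hr2 ?_ ?_
  · have e2 : (-(2 + (1 + d) ^ 2)) * (2.6 * d) ^ 2 +
      (2 * (2 * (1 + d) - 1) * (1 + d)) * (2.6 * d) + (1 - (2 * (1 + d) - 1) ^ 2) =
      d * (1.2 - 8.68 * d - 3.12 * d ^ 2 - 6.76 * d ^ 3) := by ring
    rw [e2]
    apply mul_pos hd
    have h2 : d ^ 2 ≤ 0.1225 ^ 2 := pow_le_pow_left₀ hd.le hd2 2
    have h3 : d ^ 3 ≤ 0.1225 ^ 3 := pow_le_pow_left₀ hd.le hd2 3
    norm_num at h2 h3 ⊢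
    linarith
  · have e2 : (-(2 + (1 + d) ^ 2)) * (1 / 2) ^ 2 +
      (2 * (2 * (1 + d) - 1) * (1 + d)) * (1 / 2) + (1 - (2 * (1 + d) - 1) ^ 2) =
      1 / 2 - (1 / 2 + 3 / 2 * d) ^ 2 := by ring
    rw [e2]
    nlinarith

/-- (ii) -/
lemma vert_pos {c r : ℝ} (hc1 : 1 < c) (hc2 : c ≤ 1.1225) (hr : 2.6 * (c - 1) ≤ r)
    (hr2 : r ≤ 1 / 2) : 0 < 2 - 2 * r ^ 2 - ((c * (2 - c + r * (c - 1) / 2)) ^ 2 +
      (c * (c - r * (1 + (c - 1) / 2))) ^ 2) := by
  obtain ⟨d, rfl⟩ : ∃ d, c = 1 + d := ⟨c - 1, by ring⟩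
  have hd : 0 < d := by linarith
  have hd2 : d ≤ 0.1225 := by linarith
  have e : 2 - 2 * r ^ 2 - (((1 + d) * (2 - (1 + d) + r * ((1 + d) - 1) / 2)) ^ 2 +
      ((1 + d) * ((1 + d) - r * (1 + ((1 + d) - 1) / 2))) ^ 2) =
    (-(2 + (1 + d) ^ 2 / 2 + (1 + d) ^ 4 / 2)) * r ^ 2 +
    (2 * (1 + d) ^ 2 + 2 * (1 + d) ^ 3 * d) * r +
      (2 - 2 * (1 + d) ^ 2 - 2 * (1 + d) ^ 2 * d ^ 2) := by ring
  rw [e]
  refine concave_pos (by nlinarith [sq_nonneg (1 + d), sq_nonneg ((1 + d) ^ 2)])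
    (x := 2.6 * d) (y := 1 / 2) (by linarith) hr2 ?_ ?_
  · have h2 : d ^ 2 ≤ 0.1225 * d := by nlinarith
    have h3 : d ^ 3 ≤ 0.1225 * d ^ 2 := by nlinarith [sq_nonneg d]
    have h4 : d ^ 4 ≤ 0.1225 * d ^ 3 := by nlinarith [pow_pos hd 3]
    have h5 : d ^ 5 ≤ 0.1225 * d ^ 4 := by nlinarith [pow_pos hd 4]
    have h6 : d ^ 6 ≤ 0.1225 * d ^ 5 := by nlinarith [pow_pos hd 5]
    have := pow_pos hd 2
    have := pow_pos hd 3
    have := pow_pos hd 4
    have := pow_pos hd 5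
    have := pow_pos hd 6
    ring_nf
    linarith
  · have h2 : d ^ 2 ≤ 0.1225 * d := by nlinarith
    have h3 : d ^ 3 ≤ 0.1225 * d ^ 2 := by nlinarith [sq_nonneg d]
    have h4 : d ^ 4 ≤ 0.1225 * d ^ 3 := by nlinarith [pow_pos hd 3]
    have := pow_pos hd 2
    have := pow_pos hd 3
    have := pow_pos hd 4
    ring_nf
    linarith

/-- (iii) -/
lemma third_pos {c r : ℝ} (hc1 : 1 < c) (hc2 : c ≤ 1.1225) (hr : 2.6 * (c - 1) ≤ r)
    (hr2 : r ≤ 1 / 2) : 0 < 2 - 2 * r ^ 2 - (c ^ 2 + (2 - r - c) ^ 2) := by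
  obtain ⟨d, rfl⟩ : ∃ d, c = 1 + d := ⟨c - 1, by ring⟩
  have hd : 0 < d := by linarith
  have hd2 : d ≤ 0.1225 := by linarith
  have hrp : 0 < r := by linarith
  have e : 2 - 2 * r ^ 2 - ((1 + d) ^ 2 + (2 - r - (1 + d)) ^ 2) =
    r * (2 - 3 * r) - 2 * d ^ 2 - 2 * d * r := by ring
  rw [e]
  nlinarith [mul_pos hrp hd, mul_nonneg hrp.le (sub_nonneg.2 hr2)]

lemma core1 {c A B r : ℝ} (hc1 : 1 < c) (hc2 : c ≤ 1.1225) (hB : 0 < B) (hAc : A ≤ c)
    (hsum : A ^ 2 + B ^ 2 + 2 * r ^ 2 = 2) (hr : 2.6 * (c - 1) ≤ r) (hA : 1 ≤ A)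
    (hrB : 2 * r ^ 2 ≤ B ^ 2) :
    2 * c < A + B + c * r ∨ 4 * c < (c + 2) * A + c * B + c * r := by
  have hrp : 0 < r := by linarith
  have hr2 : r ≤ 1 / 2 := by nlinarith
  by_contra hcon
  rw [not_or, not_lt, not_lt] at hcon
  obtain ⟨h1, h2⟩ := hcon
  have p1 := psi_pos hc1 hc2 hr hr2
  have p2 := vert_pos hc1 hc2 hr hr2
  have p3 := third_pos hc1 hc2 hr hr2
  set A1 := c * (2 - c + r * (c - 1) / 2) with hA1
  set B1 := c * (c - r * (1 + (c - 1) / 2)) with hB1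
  have s1 : A1 + B1 = c * (2 - r) := by rw [hA1, hB1]; ring
  have s2 : (c + 2) * A1 + c * B1 = c * (4 - r) := by rw [hA1, hB1]; ring
  rcases le_total A A1 with h | h
  · have hB' : B ≤ c * (2 - r) - A := by linarith
    have hB2 : B ^ 2 ≤ (c * (2 - r) - A) ^ 2 := pow_le_pow_left₀ hB.le hB' 2
    rcases le_total (A + 1) (c * (2 - r)) with h' | h'
    · have : (A - 1) * (A + 1 - c * (2 - r)) ≤ 0 :=
        mul_nonpos_of_nonneg_of_nonpos (by linarith) (by linarith)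
      nlinarith
    · have : (A - A1) * (A + A1 - c * (2 - r)) ≤ 0 :=
        mul_nonpos_of_nonpos_of_nonneg (by linarith) (by linarith)
      have e : B1 = c * (2 - r) - A1 := by linarith
      rw [e] at p2
      nlinarith
  · -- second edge
    set k := (c + 2) / c with hk
    have hc0 : 0 < c := by linarith
    have hkc : k * c = c + 2 := by rw [hk]; field_simp
    have hk1 : 0 < k := by rw [hk]; positivity
    have hB' : B ≤ 4 - r - k * A := by
      have : c * B ≤ c * (4 - r - k * A) := by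
        have : c * (4 - r - k * A) = c * 4 - c * r - (k * c) * A := by ring
        rw [this, hkc]; linarith
      exact le_of_mul_le_mul_left this hc0
    have hB2 : B ^ 2 ≤ (4 - r - k * A) ^ 2 := pow_le_pow_left₀ hB.le hB' 2
    have eB1 : B1 = 4 - r - k * A1 := by
      have : c * B1 = c * (4 - r - k * A1) := by
        have : c * (4 - r - k * A1) = c * 4 - c * r - (k * c) * A1 := by ring
        rw [this, hkc]; linarith
      exact mul_left_cancel₀ hc0.ne' this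
    have ec : 4 - r - k * c = 2 - r - c := by rw [hkc]; ring
    rcases le_total (k * ((4 - r - k * A) + (4 - r - k * c))) (A + c) with h' | h'
    · have : (A - c) * (A + c - k * ((4 - r - k * A) + (4 - r - k * c))) ≤ 0 :=
        mul_nonpos_of_nonpos_of_nonneg (by linarith) (by linarith)
      have e : A ^ 2 + (4 - r - k * A) ^ 2 - (c ^ 2 + (4 - r - k * c) ^ 2) =
        (A - c) * (A + c - k * ((4 - r - k * A) + (4 - r - k * c))) := by ring
      rw [← ec] at p3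
      linarith
    · have hA1c : k * A1 ≤ k * c := mul_le_mul_of_nonneg_left (h.trans hAc) hk1.le
      have h4 : k * ((4 - r - k * A) + (4 - r - k * c)) ≤
          k * ((4 - r - k * A) + (4 - r - k * A1)) :=
        mul_le_mul_of_nonneg_left (by linarith) hk1.le
      have : (A - A1) * (A + A1 - k * ((4 - r - k * A) + (4 - r - k * A1))) ≤ 0 :=
        mul_nonpos_of_nonneg_of_nonpos (by linarith) (by linarith)
      have e : A ^ 2 + (4 - r - k * A) ^ 2 - (A1 ^ 2 + (4 - r - k * A1) ^ 2) =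
        (A - A1) * (A + A1 - k * ((4 - r - k * A) + (4 - r - k * A1))) := by ring
      rw [eB1] at p2
      linarith

lemma core2 {c A B r : ℝ} (hc1 : 1 < c) (hc2 : c ≤ 1.1225) (hB : 0 < B) (hBA : B ≤ A)
    (hsum : A ^ 2 + B ^ 2 + 2 * r ^ 2 = 2) (hr : 2.6 * (c - 1) ≤ r) (hA : A ≤ 1)
    (hA6 : 0.6 ≤ A ^ 2) (hB56 : 0.56 ≤ B ^ 2) : 2 * c < A + B + c * r := by
  have hrp : 0 < r := by linarith
  have hr42 : r ^ 2 ≤ 0.42 := by linarith
  rcases le_total (r ^ 2) 0.22 with h22 | h22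
  · have hr2 : r ≤ 1 / 2 := by nlinarith
    have p1 := psi_pos hc1 hc2 hr hr2
    have hβ0 : 0 ≤ 1 - 2 * r ^ 2 := by linarith
    set β := √(1 - 2 * r ^ 2) with hβ
    have hβ2 : β ^ 2 = 1 - 2 * r ^ 2 := Real.sq_sqrt hβ0
    have hβn : 0 ≤ β := Real.sqrt_nonneg _
    have hβB : β ≤ B := by
      apply abs_le_of_sq_le_sq' _ hB.le |>.2
      nlinarith
    have h1 : 1 - A ≤ B - β := by
      by_contra hcon
      rw [not_le] at hcon
      have e1 : (B - β) * (B + β) = (1 - A) * (1 + A) := by nlinarith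
      have e2 : (B - β) * (B + β) < (1 - A) * (B + β) :=
        mul_lt_mul_of_pos_right hcon (by linarith)
      have e3 : (1 - A) * (B + β) ≤ (1 - A) * (1 + A) :=
        mul_le_mul_of_nonneg_left (by linarith) (by linarith)
      linarith
    have h2 : c * (2 - r) - 1 < β := by
      apply lt_of_le_of_lt (le_abs_self _)
      apply abs_lt_of_sq_lt_sq _ hβn
      rw [hβ2]
      linarith
    linarith
  · set y := √(0.56 : ℝ) with hy
    have hy2 : y ^ 2 = 0.56 := Real.sq_sqrt (by norm_num)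
    have hyn : 0 ≤ y := Real.sqrt_nonneg _
    have hy3 : 0.7483 ≤ y := by
      rw [hy]; exact Real.le_sqrt_of_sq_le (by norm_num)
    have hyB : y ≤ B := by
      apply abs_le_of_sq_le_sq' _ hB.le |>.2
      rw [hy2]; exact hB56
    have hg0 : 0 ≤ 1.44 - 2 * r ^ 2 := by linarith
    set g := √(1.44 - 2 * r ^ 2) with hg
    have hg2 : g ^ 2 = 1.44 - 2 * r ^ 2 := Real.sq_sqrt hg0
    have hgn : 0 ≤ g := Real.sqrt_nonneg _
    have hgA : A ≤ g := by
      apply abs_le_of_sq_le_sq' _ hgn |>.2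
      rw [hg2]; linarith
    have h1 : g - A ≤ B - y := by
      by_contra hcon
      rw [not_le] at hcon
      have e1 : (g - A) * (g + A) = (B - y) * (B + y) := by nlinarith
      have e2 : (B - y) * (g + A) < (g - A) * (g + A) :=
        mul_lt_mul_of_pos_right hcon (by linarith)
      have e3 : (B - y) * (B + y) ≤ (B - y) * (g + A) :=
        mul_le_mul_of_nonneg_left (by linarith) (by linarith)
      linarith
    have hr469 : 0.469 ≤ r := by nlinarith
    have hr6481 : r ≤ 0.6481 := by nlinarith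
    have h2 : 1.1225 * (2 - r) - 0.7483 < g := by
      apply lt_of_le_of_lt (le_abs_self _)
      apply abs_lt_of_sq_lt_sq _ hgn
      rw [hg2]
      have e : 1.44 - 2 * r ^ 2 - (1.1225 * (2 - r) - 0.7483) ^ 2 =
        (-(2 + 1.1225 ^ 2)) * r ^ 2 + (2 * 1.1225 * (2 * 1.1225 - 0.7483)) * r +
          (1.44 - (2 * 1.1225 - 0.7483) ^ 2) := by ring
      have := concave_pos (α := -(2 + 1.1225 ^ 2)) (β := 2 * 1.1225 * (2 * 1.1225 - 0.7483))
        (γ := 1.44 - (2 * 1.1225 - 0.7483) ^ 2) (by norm_num) hr469 hr6481 (by norm_num)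
        (by norm_num)
      linarith
    have h3 : c * (2 - r) ≤ 1.1225 * (2 - r) :=
      mul_le_mul_of_nonneg_right hc2 (by linarith)
    linarith

theorem goalR2 : GR2 := by
  intro c a b r hc1 hc2 hb hba hac hsum hr hcase
  have hs0 : (0 : ℝ) < √2 := by positivity
  have hs2 : √2 ^ 2 = (2 : ℝ) := Real.sq_sqrt (by norm_num)
  have hAc : √2 * a ≤ c := by
    rw [le_div_iff₀ hs0] at hac
    linarith
  have hB : 0 < √2 * b := by positivity
  have hBA : √2 * b ≤ √2 * a := mul_le_mul_of_nonneg_left hba hs0.le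
  have hA2 : (√2 * a) ^ 2 = 2 * a ^ 2 := by rw [mul_pow, hs2]
  have hB2 : (√2 * b) ^ 2 = 2 * b ^ 2 := by rw [mul_pow, hs2]
  have hS : (√2 * a) ^ 2 + (√2 * b) ^ 2 + 2 * r ^ 2 = 2 := by rw [hA2, hB2]; linarith
  have e1 : a + b + c / √2 * r - 2 * (c / √2) = (√2 * a + √2 * b + c * r - 2 * c) / √2 := by
    field_simp
  have e2 : (c + 2) * a + c * b + c / √2 * r - 4 * (c / √2) =
      ((c + 2) * (√2 * a) + c * (√2 * b) + c * r - 4 * c) / √2 := by
    field_simp
  have key : 2 * c < √2 * a + √2 * b + c * r ∨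
      4 * c < (c + 2) * (√2 * a) + c * (√2 * b) + c * r := by
    rcases hcase with ⟨h1, h2⟩ | ⟨h1, h2, h3⟩
    · refine core1 hc1 hc2 hB hAc hS hr ?_ ?_
      · have : (1 : ℝ) ^ 2 ≤ (√2 * a) ^ 2 := by rw [hA2]; linarith
        exact (abs_le_of_sq_le_sq' this (by linarith)).2
      · rw [hB2]; linarith
    · left
      refine core2 hc1 hc2 hB hBA hS hr ?_ (by rw [hA2]; linarith) ?_
      · have : (√2 * a) ^ 2 ≤ (1 : ℝ) ^ 2 := by rw [hA2]; linarith
        exact (abs_le_of_sq_le_sq' this (by norm_num)).2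
      · rw [hB2]; linarith
  rcases key with h | h
  · left
    have : 0 < a + b + c / √2 * r - 2 * (c / √2) := by
      rw [e1]; exact div_pos (by linarith) hs0
    linarith
  · right
    have : 0 < (c + 2) * a + c * b + c / √2 * r - 4 * (c / √2) := by
      rw [e2]; exact div_pos (by linarith) hs0
    linarith

end Pool.Agent.Helper27.NO
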